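import Pool.Agent.H.MP_f9d380_an.Ex

namespace Pool.Agent.H.MP_8f7167_an

open Finset Filter Topology Pool.Agent.H.MP_f9d380_an

noncomputable def t (n j : ℕ) : ℝ := if j % 2 = 1 ∧ n ≤ j / 2 then 1 / 2 / 2 ^ (j / 2 - n) else 0

theorem t_nonneg (n j : ℕ) : 0 ≤ t n j := by unfold t; split_ifs <;> positivity

theorem t_sum (n : ℕ) : HasSum (t n) 1 := by
  refine (Function.Injective.hasSum_iff (g := fun r => 2 * (n + r) + 1)
    (fun a b h => by simp only at h; omega) fun j hj => if_neg fun h =>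
      hj ⟨j / 2 - n, by simp only; omega⟩).1 ?_
  refine (congrArg (HasSum · 1) (funext fun r => ?_)).mp (hasSum_geometric_two' 1)
  simp only [Function.comp, t]
  rw [if_pos (by omega), show (2 * (n + r) + 1) / 2 - n = r by omega]

theorem t_zero {n j : ℕ} (h : j ≤ n) : t n j = 0 := if_neg (by omega)

noncomputable def ev (i : ℕ) : L1 →L[ℝ] ℝ := lp.evalCLM ℝ (fun _ : ℕ => ℝ) 1 i

theorem ev_app (i : ℕ) (y : L1) : ev i y = y i := rfl

noncomputable def x (i : ℕ) : L1 := if i % 2 = 1 then u (i - 1) + (1 / 8 ^ (i / 2) : ℝ) • u i else u i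

noncomputable def f (i : ℕ) : L1 →L[ℝ] ℝ :=
  if i % 2 = 1 then (8 ^ (i / 2) : ℝ) • ev i else ev i - (8 ^ (i / 2) : ℝ) • ev (i + 1)

theorem f_app (i : ℕ) (y : L1) :
    f i y = if i % 2 = 1 then 8 ^ (i / 2) * y i else y i - 8 ^ (i / 2) * y (i + 1) := by
  unfold f; split_ifs <;> rfl

theorem x_app (j k : ℕ) : x j k = if j % 2 = 1 then (if k = j - 1 then 1 else 0) +
    1 / 8 ^ (j / 2) * (if k = j then 1 else 0) else if k = j then 1 else 0 := by
  rw [← u_app, ← u_app]
  unfold x; split_ifs <;> rfl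

theorem bi (i j : ℕ) : f i (x j) = if i = j then 1 else 0 := by
  rw [f_app, x_app, x_app]
  by_cases h : i + 1 = j
  · subst h
    have : i % 2 ≠ 1 → (i + 1) / 2 = i / 2 := by omega
    split_ifs <;> first | omega | (rw [this (by omega)]; simp) | simp
  · by_cases h' : i = j
    · subst h'; split_ifs <;> first | omega | simp
    · split_ifs <;> first | omega | simp

theorem even_sum (y : L1) (k : ℕ) :
    ∑ i ∈ range (2 * k), f i y • x i = ∑ i ∈ range (2 * k), y i • u i := by
  induction k with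
  | zero => rfl
  | succ k ih =>
    rw [show 2 * (k + 1) = 2 * k + 1 + 1 by ring, sum_range_succ, sum_range_succ, sum_range_succ,
      sum_range_succ, ih, f_app, f_app, x, x, if_neg (by omega), if_neg (by omega),
      if_pos (by omega), if_pos (by omega), show (2 * k + 1) / 2 = k by omega,
      show 2 * k / 2 = k by omega, Nat.add_sub_cancel, smul_add, smul_smul, sub_smul,
      show 8 ^ k * y (2 * k + 1) * (1 / 8 ^ k) = y (2 * k + 1) by field_simp]
    abel

theorem term (y : L1) (n j : ℕ) : t n j • ∑ i ∈ range (j + 1), f i y • x i =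
    t n j • ∑ i ∈ range (j + 1), y i • u i := by
  unfold t
  split_ifs with h
  · rw [show j + 1 = 2 * (j / 2 + 1) by omega, even_sum]
  · simp

theorem exist (y : L1) : ∃ σ : ℕ → L1, (∀ n, Tendsto (fun m => ∑ j ∈ range m,
    t n j • ∑ i ∈ range (j + 1), f i y • x i) atTop (𝓝 (σ n))) ∧ Tendsto σ atTop (𝓝 y) := by
  simp only [term]
  have b : ∀ n j, ‖t n j • (y - ∑ i ∈ range (j + 1), y i • u i)‖ ≤
      t n j * ‖y - ∑ i ∈ range n, y i • u i‖ := fun n j => by
    rw [norm_smul, Real.norm_of_nonneg (t_nonneg n j)]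
    by_cases h : n ≤ j + 1
    · rw [compl, compl]
      exact mul_le_mul_of_nonneg_left (sub_le_sub_left (sum_le_sum_of_subset_of_nonneg
        (range_subset_range.2 h) fun _ _ _ => abs_nonneg _) _) (t_nonneg n j)
    · simp [t_zero (show j ≤ n by omega)]
  have s : ∀ n, Summable fun j => t n j • (y - ∑ i ∈ range (j + 1), y i • u i) := fun n =>
    .of_norm_bounded ((t_sum n).mul_right _).summable (b n)
  refine ⟨fun n => y - ∑' j, t n j • (y - ∑ i ∈ range (j + 1), y i • u i), fun n => ?_, ?_⟩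
  · have := (((t_sum n).smul_const y).sub (s n).hasSum).tendsto_sum_nat
    simpa only [one_smul, smul_sub, sub_sub_cancel] using this
  · have h := (lp.hasSum_single (by simp) y).tendsto_sum_nat
    simp only [← smul_u] at h
    have h2 := squeeze_zero_norm (fun n => (tsum_of_norm_bounded ((t_sum n).mul_right _)
      (b n)).trans_eq (by rw [one_mul, norm_sub_rev])) (tendsto_iff_norm_sub_tendsto_zero.1 h)
    simpa using h2.const_sub y

theorem uniq (y : L1) (α : ℕ → ℝ) (σ : ℕ → L1) (h1 : ∀ n, Tendsto (fun m => ∑ j ∈ range m,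
    t n j • ∑ i ∈ range (j + 1), α i • x i) atTop (𝓝 (σ n))) (h2 : Tendsto σ atTop (𝓝 y)) :
    α = fun i => f i y := funext fun i => by
  refine tendsto_nhds_unique (tendsto_const_nhds.congr' ?_) (((f i).continuous.tendsto _).comp h2)
  filter_upwards [eventually_gt_atTop i] with n hn
  refine tendsto_nhds_unique ?_ (((f i).continuous.tendsto _).comp (h1 n))
  have := ((t_sum n).mul_right (α i)).tendsto_sum_nat
  rw [one_mul] at this
  refine this.congr fun m => ?_
  simp only [Function.comp, map_sum, map_smul, bi, smul_eq_mul, mul_ite, mul_one, mul_zero,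
    sum_ite_eq, mem_range]
  refine sum_congr rfl fun j _ => ?_
  split_ifs with h
  · rfl
  · rw [t_zero (by omega), zero_mul]

noncomputable def y0 : L1 := ⟨fun i => 1 / 2 / 2 ^ i, memℓp_gen (by
  simpa using summable_geometric_two' 1)⟩

theorem diverge (z : L1) : ¬ Tendsto (fun m => ∑ i ∈ range m,
    ((∑' j, t 0 (j + i)) * f i y0) • x i) atTop (𝓝 z) := fun h => by
  have h1 := (h.comp (tendsto_add_atTop_nat 1)).sub h
  simp only [Function.comp_def, sum_range_succ, add_sub_cancel_left, sub_self] at h1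
  obtain ⟨k, hk⟩ := eventually_atTop.1 (h1.norm.eventually (gt_mem_nhds
    (show ‖(0 : L1)‖ < 1 / 8 by simp)))
  have h2 := hk (2 * k + 1) (by omega)
  have h3 := ((summable_nat_add_iff (2 * k + 1)).2 (t_sum 0).summable).le_tsum 0
    fun j _ => t_nonneg _ _
  have h4 : |x (2 * k + 1) (2 * k)| ≤ ‖x (2 * k + 1)‖ :=
    lp.norm_apply_le_norm one_ne_zero (x (2 * k + 1)) (2 * k)
  have h5 : y0 (2 * k + 1) = 1 / 2 / 2 ^ (2 * k + 1) := rfl
  rw [x_app, if_pos (by omega), if_pos (by omega), if_neg (by omega)] at h4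
  rw [t, if_pos (by omega), show (0 + (2 * k + 1)) / 2 - 0 = k by omega] at h3
  rw [norm_smul, f_app, if_pos (by omega), h5, show (2 * k + 1) / 2 = k by omega,
    Real.norm_of_nonneg (mul_nonneg (le_trans (by positivity) h3) (by positivity))] at h2
  have h6 : (1 / 2 / 2 ^ k : ℝ) * (8 ^ k * (1 / 2 / 2 ^ (2 * k + 1))) = 1 / 8 := by
    rw [show (8 : ℝ) = 2 ^ 3 by norm_num, ← pow_mul]; field_simp; ring
  have h7 := mul_le_mul (mul_le_mul_of_nonneg_right h3
    (show (0 : ℝ) ≤ 8 ^ k * (1 / 2 / 2 ^ (2 * k + 1)) by positivity)) h4 (abs_nonneg _)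
    (mul_nonneg (le_trans (by positivity) h3) (by positivity))
  rw [h6] at h7
  norm_num at h7 h2
  linarith

end Pool.Agent.H.MP_8f7167_an
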